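import Mathlib
import Pool.Agent.R290.TreeCut

/-!
MP_1b30fb_an Q1: the Riesz ratio of the sets `E_n` tends to infinity; in fact
`ρ(E) ≥ p / 4` for every odd prime `p`.
-/

namespace Pool.Agent.Results.MP_1b30fb_an.RieszRatioTendsto

open Finset
open scoped ENNReal
open Pool.Agent.R290

/-- The matrix `T(E,B)`, with entries `e_b(x) = exp(2 π i (b · x) / p)`. -/
noncomputable def expMatrix (p : ℕ) [NeZero p] (E B : Finset (ZMod p × ZMod p)) :
    Matrix E B ℂ :=
  fun x b => ZMod.stdAddChar (b.1.1 * x.1.1 + b.1.2 * x.1.2)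

/-- The map `a ↦ T a`, `ℂ^B → ℂ^E`. -/
noncomputable def mapT (p : ℕ) [NeZero p] (E B : Finset (ZMod p × ZMod p)) (a : B → ℂ) :
    E → ℂ :=
  fun x => ∑ b, expMatrix p E B x b * a b

/-- The square of the Euclidean norm, in `[0,∞]`. -/
noncomputable def n2 {ι : Type} [Fintype ι] (a : ι → ℂ) : ℝ≥0∞ := ∑ i, ‖a i‖ₑ ^ 2

/-- `‖T‖²`, the supremum of `‖T a‖² / ‖a‖²` over `a ≠ 0`. -/
noncomputable def normSqT (p : ℕ) [NeZero p] (E B : Finset (ZMod p × ZMod p)) : ℝ≥0∞ :=
  ⨆ (a : B → ℂ) (_ : a ≠ 0), n2 (mapT p E B a) / n2 a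

/-- `‖T⁻¹‖²`, the supremum of `‖a‖² / ‖T a‖²` over `a ≠ 0`; it is `⊤` if `T a = 0` for
some `a ≠ 0`. -/
noncomputable def invNormSqT (p : ℕ) [NeZero p] (E B : Finset (ZMod p × ZMod p)) : ℝ≥0∞ :=
  ⨆ (a : B → ℂ) (_ : a ≠ 0), n2 a / n2 (mapT p E B a)

/-- The Riesz ratio of `B` relative to `E` (for `|B| = |E|`): `‖T‖² ‖T⁻¹‖²` if `T` is
invertible, `⊤` otherwise. -/
noncomputable def rieszRatioRel (p : ℕ) [NeZero p] (E B : Finset (ZMod p × ZMod p)) : ℝ≥0∞ :=
  normSqT p E B * invNormSqT p E B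

/-- The Riesz ratio of `E`. -/
noncomputable def rieszRatio (p : ℕ) [NeZero p] (E : Finset (ZMod p × ZMod p)) : ℝ≥0∞ :=
  ⨅ (B : Finset (ZMod p × ZMod p)) (_ : B.card = E.card), rieszRatioRel p E B

/-- The set `E = ({0} × Z_p) ∪ {(t,t)} ∪ {(1,0)}`. -/
def theSet (p : ℕ) [NeZero p] : Finset (ZMod p × ZMod p) :=
  (Finset.univ.image (fun j : ZMod p => ((0 : ZMod p), j))) ∪
    (Finset.univ.image (fun t : ZMod p => (t, t))) ∪ {(1, 0)}

section
variable {p : ℕ} [Fact p.Prime]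

lemma two_lt_or (hp : p ≠ 2) : 2 < p := by
  have := (Fact.out : p.Prime).two_le
  omega

lemma sum_theSet {A : Type*} [AddCommMonoid A] (f : ZMod p × ZMod p → A) :
    ∑ x ∈ theSet p, f x =
      (∑ j : ZMod p, f (0, j)) + (∑ t ∈ Finset.univ.erase (0 : ZMod p), f (t, t)) +
        f (1, 0) := by
  have h1 : theSet p = ((Finset.univ.image (fun j : ZMod p => ((0 : ZMod p), j))) ∪
      ((Finset.univ.erase (0 : ZMod p)).image (fun t : ZMod p => (t, t)))) ∪ {(1, 0)} := by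
    ext ⟨a, b⟩
    simp only [theSet, Finset.mem_union, Finset.mem_image, Finset.mem_univ, true_and,
      Finset.mem_singleton, Finset.mem_erase, and_true]
    constructor
    · rintro ((⟨j, h⟩ | ⟨t, h⟩) | h)
      · exact Or.inl (Or.inl ⟨j, h⟩)
      · by_cases ht : t = 0
        · subst ht
          exact Or.inl (Or.inl ⟨0, h⟩)
        · exact Or.inl (Or.inr ⟨t, ht, h⟩)
      · exact Or.inr h
    · rintro ((⟨j, h⟩ | ⟨t, _, h⟩) | h)
      · exact Or.inl (Or.inl ⟨j, h⟩)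
      · exact Or.inl (Or.inr ⟨t, h⟩)
      · exact Or.inr h
  rw [h1, Finset.sum_union, Finset.sum_union, Finset.sum_image, Finset.sum_image,
    Finset.sum_singleton]
  · intro a _ b _ h
    exact (Prod.ext_iff.1 h).1
  · intro a _ b _ h
    exact (Prod.ext_iff.1 h).2
  · rw [Finset.disjoint_left]
    rintro ⟨a, b⟩ h2 h3
    simp only [Finset.mem_image, Finset.mem_univ, true_and, Finset.mem_erase, and_true,
      Prod.mk.injEq] at h2 h3
    obtain ⟨j, h4, h5⟩ := h2
    obtain ⟨t, ht, h6, h7⟩ := h3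
    exact ht (h6.trans h4.symm)
  · rw [Finset.disjoint_left]
    rintro ⟨a, b⟩ h2 h3
    simp only [Finset.mem_image, Finset.mem_univ, true_and, Finset.mem_erase, and_true,
      Prod.mk.injEq, Finset.mem_union, Finset.mem_singleton] at h2 h3
    obtain ⟨h4, h5⟩ := h3
    subst h4 h5
    rcases h2 with ⟨j, h6, h7⟩ | ⟨t, ht, h6, h7⟩
    · exact zero_ne_one h6
    · exact ht h7

lemma card_theSet : (theSet p).card = 2 * p := by
  have hp := (Fact.out : p.Prime).two_le
  rw [Finset.card_eq_sum_ones, sum_theSet]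
  simp only [Finset.sum_const, smul_eq_mul, mul_one]
  rw [Finset.card_erase_of_mem (Finset.mem_univ _), Finset.card_univ, ZMod.card]
  omega

lemma stdAddChar_norm (x : ZMod p) : ‖ZMod.stdAddChar x‖ = 1 := by
  simp

lemma conj_std (x : ZMod p) :
    (starRingEnd ℂ) (ZMod.stdAddChar x) = ZMod.stdAddChar (-x) := by
  rw [AddChar.map_neg_eq_conj]

lemma sum_std (b : ZMod p) :
    ∑ x : ZMod p, (ZMod.stdAddChar (x * b) : ℂ) = if b = 0 then (p : ℂ) else 0 := by
  have := AddChar.sum_mulShift (R' := ℂ) b (ZMod.isPrimitive_stdAddChar p)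
  rw [this, ZMod.card]
  push_cast
  rfl

/-- inverse Fourier transform -/
noncomputable def Fh (f : ZMod p → ℂ) (j : ZMod p) : ℂ :=
  (p : ℂ)⁻¹ * ∑ u : ZMod p, f u * ZMod.stdAddChar (j * u)

lemma p_ne : (p : ℂ) ≠ 0 := by
  exact_mod_cast (Fact.out : p.Prime).ne_zero

lemma Fh_inv (f : ZMod p → ℂ) (b : ZMod p) :
    ∑ j : ZMod p, ZMod.stdAddChar (-(b * j)) * Fh f j = f b := by
  unfold Fh
  have h1 : ∀ j : ZMod p, ZMod.stdAddChar (-(b * j)) *
      ((p : ℂ)⁻¹ * ∑ u : ZMod p, f u * ZMod.stdAddChar (j * u)) =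
      (p : ℂ)⁻¹ * ∑ u : ZMod p, f u * ZMod.stdAddChar (j * (u - b)) := by
    intro j
    rw [mul_left_comm, Finset.mul_sum]
    congr 1
    refine Finset.sum_congr rfl fun u _ => ?_
    rw [mul_left_comm, ← AddChar.map_add_eq_mul]
    congr 2
    ring
  rw [Finset.sum_congr rfl (fun j _ => h1 j), ← Finset.mul_sum, Finset.sum_comm]
  have h2 : ∀ u : ZMod p, ∑ j : ZMod p, f u * (ZMod.stdAddChar (j * (u - b)) : ℂ) =
      if u = b then f b * p else 0 := by
    intro u
    rw [← Finset.mul_sum, sum_std]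
    by_cases h : u = b
    · simp [h]
    · rw [if_neg (sub_ne_zero.2 h), if_neg h, mul_zero]
  rw [Finset.sum_congr rfl (fun u _ => h2 u), Finset.sum_ite_eq' Finset.univ b,
    if_pos (Finset.mem_univ _)]
  rw [mul_comm (f b), ← mul_assoc, inv_mul_cancel₀ p_ne, one_mul]

lemma Fh_parseval (f : ZMod p → ℂ) :
    ∑ j : ZMod p, ‖Fh f j‖ ^ 2 = (p : ℝ)⁻¹ * ∑ u : ZMod p, ‖f u‖ ^ 2 := by
  have h0 : ∀ z : ℂ, ((‖z‖ ^ 2 : ℝ) : ℂ) = (starRingEnd ℂ) z * z := by
    intro z
    rw [mul_comm, Complex.mul_conj, Complex.normSq_eq_norm_sq]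
  have h : ((∑ j : ZMod p, ‖Fh f j‖ ^ 2 : ℝ) : ℂ) =
      (((p : ℝ)⁻¹ * ∑ u : ZMod p, ‖f u‖ ^ 2 : ℝ) : ℂ) := by
    push_cast
    have h1 : ∀ j : ZMod p, ((‖Fh f j‖ : ℂ) ^ 2) = ∑ u : ZMod p, (p : ℂ)⁻¹ *
        ((starRingEnd ℂ) (f u) * (ZMod.stdAddChar (-(u * j)) * Fh f j)) := by
      intro j
      have := h0 (Fh f j)
      push_cast at this
      have hF : (starRingEnd ℂ) (Fh f j) =
          ∑ u : ZMod p, (p : ℂ)⁻¹ * ((starRingEnd ℂ) (f u) * ZMod.stdAddChar (-(u * j))) := by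
        rw [Fh, map_mul, map_sum, map_inv₀, Complex.conj_natCast, Finset.mul_sum]
        refine Finset.sum_congr rfl fun u _ => ?_
        rw [map_mul, conj_std, mul_comm j u]
      rw [this, hF, Finset.sum_mul]
      refine Finset.sum_congr rfl fun u _ => ?_
      ring
    rw [Finset.sum_congr rfl (fun j _ => h1 j), Finset.sum_comm, Finset.mul_sum]
    refine Finset.sum_congr rfl fun u _ => ?_
    rw [← Finset.mul_sum, ← Finset.mul_sum, Fh_inv]
    have := h0 (f u)
    push_cast at this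
    rw [this]
  exact_mod_cast h

variable (B : Finset (ZMod p × ZMod p))

/-- `T(E,B)` as a continuous linear map between Euclidean spaces. -/
noncomputable def expMap (p : ℕ) [NeZero p] (E B : Finset (ZMod p × ZMod p)) :
    EuclideanSpace ℂ B →L[ℂ] EuclideanSpace ℂ E :=
  LinearMap.toContinuousLinearMap
    (Matrix.toEuclideanLin (expMatrix p E B))

lemma expMap_apply (E : Finset (ZMod p × ZMod p)) (a : EuclideanSpace ℂ B) (x : E) :
    expMap p E B a x =
      ∑ b : B, ZMod.stdAddChar (b.1.1 * x.1.1 + b.1.2 * x.1.2) * a b := by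
  simp [expMap, Matrix.toLpLin_apply, Matrix.mulVec, dotProduct, expMatrix]

lemma upper (E : Finset (ZMod p × ZMod p)) (a : B → ℂ) :
    ∑ x : E, ‖∑ b : B, ZMod.stdAddChar (b.1.1 * x.1.1 + b.1.2 * x.1.2) * a b‖ ^ 2 ≤
      ‖expMap p E B‖ ^ 2 * ∑ b : B, ‖a b‖ ^ 2 := by
  have h := (expMap p E B).le_opNorm (WithLp.toLp 2 a)
  have h2 := pow_le_pow_left₀ (norm_nonneg _) h 2
  rw [mul_pow, EuclideanSpace.norm_sq_eq, EuclideanSpace.norm_sq_eq] at h2
  simpa [expMap_apply] using h2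

lemma lower (E : Finset (ZMod p × ZMod p))
    (S : EuclideanSpace ℂ E →L[ℂ] EuclideanSpace ℂ B)
    (hS : (expMap p E B).comp S = ContinuousLinearMap.id ℂ _) (h : E → ℂ) :
    ∑ x : E, ‖h x‖ ^ 2 ≤ ‖S‖ ^ 2 *
      ∑ b : B, ‖∑ x : E, ZMod.stdAddChar (-(b.1.1 * x.1.1 + b.1.2 * x.1.2)) * h x‖ ^ 2 := by
  let hv : EuclideanSpace ℂ E := WithLp.toLp 2 h
  let A : EuclideanSpace ℂ E →ₗ[ℂ] EuclideanSpace ℂ B :=
    LinearMap.adjoint (Matrix.toEuclideanLin (expMatrix p E B))
  have hA : ∀ b : B, A hv b =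
      ∑ x : E, ZMod.stdAddChar (-(b.1.1 * x.1.1 + b.1.2 * x.1.2)) * h x := by
    intro b
    have : A = Matrix.toEuclideanLin (expMatrix p E B).conjTranspose :=
      (Matrix.toEuclideanLin_conjTranspose_eq_adjoint _).symm
    rw [this]
    simp [Matrix.mulVec, dotProduct, expMatrix, hv, Matrix.conjTranspose_apply]
    refine Finset.sum_congr rfl fun x _ => ?_
    rw [conj_std]
    congr 2
    ring
  have h1 : (expMap p E B) (S hv) = hv := by
    have := congrArg (fun f => f hv) hS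
    simpa using this
  have h2 : inner ℂ (A hv) (S hv) = inner ℂ hv hv := by
    have := LinearMap.adjoint_inner_left (Matrix.toEuclideanLin (expMatrix p E B)) (S hv) hv
    rw [show A hv = LinearMap.adjoint (Matrix.toEuclideanLin (expMatrix p E B)) hv from rfl,
      this]
    conv_rhs => rw [← h1]
    have h3 : (expMap p E B) (S hv) = Matrix.toEuclideanLin (expMatrix p E B) (S hv) := rfl
    rw [← h3, h1]
  have h3 : ‖hv‖ ^ 2 ≤ ‖A hv‖ * (‖S‖ * ‖hv‖) := by
    have e1 : ‖hv‖ ^ 2 = ‖inner ℂ hv hv‖ := by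
      rw [inner_self_eq_norm_sq_to_K]
      simp
    rw [e1, ← h2]
    refine (norm_inner_le_norm _ _).trans ?_
    gcongr
    exact S.le_opNorm hv
  have h4 : ‖hv‖ ^ 2 ≤ ‖S‖ ^ 2 * ‖A hv‖ ^ 2 := by
    by_cases h0 : ‖hv‖ = 0
    · rw [h0]
      have : 0 ≤ ‖S‖ ^ 2 * ‖A hv‖ ^ 2 := by positivity
      simpa using this
    · have hpos : 0 < ‖hv‖ := lt_of_le_of_ne (norm_nonneg _) (Ne.symm h0)
      have : ‖hv‖ ≤ ‖S‖ * ‖A hv‖ := by
        have h5 : ‖hv‖ * ‖hv‖ ≤ (‖S‖ * ‖A hv‖) * ‖hv‖ := by nlinarith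
        exact le_of_mul_le_mul_right h5 hpos
      rw [← mul_pow]
      exact pow_le_pow_left₀ (norm_nonneg _) this 2
  rw [EuclideanSpace.norm_sq_eq, EuclideanSpace.norm_sq_eq] at h4
  simpa [hA, hv] using h4

/-- the test vector attached to two functions -/
noncomputable def tv (f g : ZMod p → ℂ) (x : ZMod p × ZMod p) : ℂ :=
  if x.1 = 0 then Fh f x.2 + (if x.2 = 0 then Fh g 0 else 0)
  else if x.1 = x.2 then Fh g x.1 else 0

lemma tv_transform (f g : ZMod p → ℂ) (b : ZMod p × ZMod p) :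
    ∑ x ∈ theSet p, ZMod.stdAddChar (-(b.1 * x.1 + b.2 * x.2)) * tv f g x =
      f b.2 + g (b.1 + b.2) := by
  rw [sum_theSet]
  have h1 : ∀ j : ZMod p, ZMod.stdAddChar (-(b.1 * (0 : ZMod p) + b.2 * j)) * tv f g (0, j) =
      ZMod.stdAddChar (-(b.2 * j)) * Fh f j + if j = 0 then Fh g 0 else 0 := by
    intro j
    simp only [tv, if_true, mul_zero, zero_add]
    by_cases hj : j = 0
    · subst hj
      simp
    · simp [hj]
  have h2 : ∀ t ∈ Finset.univ.erase (0 : ZMod p),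
      ZMod.stdAddChar (-(b.1 * t + b.2 * t)) * tv f g (t, t) =
      ZMod.stdAddChar (-((b.1 + b.2) * t)) * Fh g t := by
    intro t ht
    have ht0 := Finset.ne_of_mem_erase ht
    simp only [tv, if_neg ht0, if_true]
    rw [add_mul]
  have h3 : tv f g (1, 0) = 0 := by
    simp [tv]
  rw [Finset.sum_congr rfl (fun j _ => h1 j), Finset.sum_congr rfl h2, h3, mul_zero, add_zero,
    Finset.sum_add_distrib, Fh_inv, Finset.sum_ite_eq' Finset.univ (0 : ZMod p),
    if_pos (Finset.mem_univ _), add_assoc]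
  congr 1
  have h4 := Fh_inv g (b.1 + b.2)
  rw [← Finset.add_sum_erase Finset.univ _ (Finset.mem_univ (0 : ZMod p))] at h4
  simpa using h4

lemma tv_norm (f g : ZMod p → ℂ) :
    ∑ x ∈ theSet p, ‖tv f g x‖ ^ 2 =
      ‖Fh f 0 + Fh g 0‖ ^ 2 - ‖Fh f 0‖ ^ 2 - ‖Fh g 0‖ ^ 2 +
        (p : ℝ)⁻¹ * ∑ u : ZMod p, ‖f u‖ ^ 2 + (p : ℝ)⁻¹ * ∑ u : ZMod p, ‖g u‖ ^ 2 := by
  rw [sum_theSet, ← Fh_parseval, ← Fh_parseval,
    ← Finset.add_sum_erase Finset.univ (fun j => ‖tv f g (0, j)‖ ^ 2)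
      (Finset.mem_univ (0 : ZMod p)),
    ← Finset.add_sum_erase Finset.univ (fun j => ‖Fh f j‖ ^ 2) (Finset.mem_univ (0 : ZMod p)),
    ← Finset.add_sum_erase Finset.univ (fun j => ‖Fh g j‖ ^ 2) (Finset.mem_univ (0 : ZMod p))]
  have h1 : ∀ j ∈ Finset.univ.erase (0 : ZMod p), ‖tv f g (0, j)‖ ^ 2 = ‖Fh f j‖ ^ 2 := by
    intro j hj
    have hj0 := Finset.ne_of_mem_erase hj
    simp [tv, hj0]
  have h2 : ∀ t ∈ Finset.univ.erase (0 : ZMod p), ‖tv f g (t, t)‖ ^ 2 = ‖Fh g t‖ ^ 2 := by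
    intro t ht
    have ht0 := Finset.ne_of_mem_erase ht
    simp [tv, ht0]
  have h3 : tv f g (1, 0) = 0 := by
    simp [tv]
  have h4 : tv f g (0, 0) = Fh f 0 + Fh g 0 := by
    simp [tv]
  rw [Finset.sum_congr rfl h1, Finset.sum_congr rfl h2, h3, h4]
  simp only [norm_zero]
  ring

/-- indicator functions of the two parts of a vertex set -/
noncomputable def fU (S : Finset (ZMod p ⊕ ZMod p)) (u : ZMod p) : ℂ :=
  if Sum.inl u ∈ S then 1 else 0

noncomputable def fV (S : Finset (ZMod p ⊕ ZMod p)) (u : ZMod p) : ℂ :=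
  if Sum.inr u ∈ S then -1 else 0

noncomputable def cU (S : Finset (ZMod p ⊕ ZMod p)) : ℕ :=
  (Finset.univ.filter (fun u : ZMod p => Sum.inl u ∈ S)).card

noncomputable def cV (S : Finset (ZMod p ⊕ ZMod p)) : ℕ :=
  (Finset.univ.filter (fun u : ZMod p => Sum.inr u ∈ S)).card

omit [Fact p.Prime] in
lemma card_split [NeZero p] (S : Finset (ZMod p ⊕ ZMod p)) :
    S.card = (Finset.univ.filter (fun u : ZMod p => Sum.inl u ∈ S)).card +
      (Finset.univ.filter (fun u : ZMod p => Sum.inr u ∈ S)).card := by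
  have h : S.card = ∑ x : ZMod p ⊕ ZMod p, if x ∈ S then 1 else 0 := by simp
  rw [h, Fintype.sum_sum_type, Finset.card_filter, Finset.card_filter]

lemma Fh_fU (S : Finset (ZMod p ⊕ ZMod p)) : Fh (fU S) 0 = (((cU S : ℝ) / p : ℝ) : ℂ) := by
  have h : ∑ u : ZMod p, fU S u = (cU S : ℂ) := by
    simp only [fU, cU]
    rw [Finset.card_filter]
    push_cast
    rfl
  simp only [Fh, zero_mul, AddChar.map_zero_eq_one, mul_one]
  rw [h]
  push_cast
  ring

lemma Fh_fV (S : Finset (ZMod p ⊕ ZMod p)) : Fh (fV S) 0 = ((-((cV S : ℝ) / p) : ℝ) : ℂ) := by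
  have h : ∑ u : ZMod p, fV S u = -(cV S : ℂ) := by
    simp only [fV, cV]
    rw [Finset.card_filter]
    push_cast
    rw [← Finset.sum_neg_distrib]
    refine Finset.sum_congr rfl fun u _ => ?_
    split_ifs <;> simp
  simp only [Fh, zero_mul, AddChar.map_zero_eq_one, mul_one]
  rw [h]
  push_cast
  ring

lemma sum_fU (S : Finset (ZMod p ⊕ ZMod p)) : ∑ u : ZMod p, ‖fU S u‖ ^ 2 = (cU S : ℝ) := by
  simp only [fU, cU]
  rw [Finset.card_filter]
  push_cast
  refine Finset.sum_congr rfl fun u _ => ?_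
  split_ifs <;> simp

lemma sum_fV (S : Finset (ZMod p ⊕ ZMod p)) : ∑ u : ZMod p, ‖fV S u‖ ^ 2 = (cV S : ℝ) := by
  simp only [fV, cV]
  rw [Finset.card_filter]
  push_cast
  refine Finset.sum_congr rfl fun u _ => ?_
  split_ifs <;> simp

lemma tv_norm' (S : Finset (ZMod p ⊕ ZMod p)) :
    ∑ x ∈ theSet p, ‖tv (fU S) (fV S) x‖ ^ 2 =
      (cU S : ℝ) / p + (cV S : ℝ) / p - 2 * ((cU S : ℝ) / p) * ((cV S : ℝ) / p) := by
  rw [tv_norm, Fh_fU, Fh_fV, sum_fU, sum_fV, ← Complex.ofReal_add, Complex.norm_real,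
    Complex.norm_real, Complex.norm_real]
  simp only [Real.norm_eq_abs, sq_abs]
  ring

/-- edge endpoints -/
def es (b : B) : ZMod p ⊕ ZMod p := Sum.inl b.1.2
def et (b : B) : ZMod p ⊕ ZMod p := Sum.inr (b.1.1 + b.1.2)

lemma transform_norm (S : Finset (ZMod p ⊕ ZMod p)) :
    ∑ b : B, ‖∑ x : theSet p, ZMod.stdAddChar (-(b.1.1 * x.1.1 + b.1.2 * x.1.2)) *
      tv (fU S) (fV S) x.1‖ ^ 2 = ((TreeCut.cut (es B) (et B) S).card : ℝ) := by
  rw [TreeCut.cut, Finset.card_filter]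
  push_cast
  refine Finset.sum_congr rfl fun b _ => ?_
  have h1 : ∑ x : theSet p, ZMod.stdAddChar (-(b.1.1 * x.1.1 + b.1.2 * x.1.2)) *
      tv (fU S) (fV S) x.1 = fU S b.1.2 + fV S (b.1.1 + b.1.2) := by
    rw [← tv_transform]
    exact Finset.sum_coe_sort (theSet p)
      (fun x => ZMod.stdAddChar (-(b.1.1 * x.1 + b.1.2 * x.2)) * tv (fU S) (fV S) x)
  rw [h1]
  simp only [es, et, fU, fV]
  by_cases h2 : Sum.inl b.1.2 ∈ S <;> by_cases h3 : Sum.inr (b.1.1 + b.1.2) ∈ S <;>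
    simp [h2, h3]

lemma cut_bound (S₀ : EuclideanSpace ℂ (theSet p) →L[ℂ] EuclideanSpace ℂ B)
    (hS : (expMap p (theSet p) B).comp S₀ = ContinuousLinearMap.id ℂ _)
    (S : Finset (ZMod p ⊕ ZMod p)) :
    (cU S : ℝ) / p + (cV S : ℝ) / p - 2 * ((cU S : ℝ) / p) * ((cV S : ℝ) / p) ≤
      ‖S₀‖ ^ 2 * ((TreeCut.cut (es B) (et B) S).card : ℝ) := by
  have h := lower B (theSet p) S₀ hS (fun x => tv (fU S) (fV S) x.1)
  rw [transform_norm] at h
  rw [← tv_norm']
  refine le_trans (le_of_eq ?_) h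
  exact (Finset.sum_coe_sort (theSet p) (fun x => ‖tv (fU S) (fV S) x‖ ^ 2)).symm

lemma cU_le (S : Finset (ZMod p ⊕ ZMod p)) : cU S ≤ p := by
  refine (Finset.card_filter_le _ _).trans ?_
  rw [Finset.card_univ, ZMod.card]

lemma cV_le (S : Finset (ZMod p ⊕ ZMod p)) : cV S ≤ p := by
  refine (Finset.card_filter_le _ _).trans ?_
  rw [Finset.card_univ, ZMod.card]

lemma theSet_sum_ge (g : ZMod p × ZMod p → ℝ) (hg : ∀ x, 0 ≤ g x) :
    (∑ j : ZMod p, g (0, j) ≤ ∑ x ∈ theSet p, g x) ∧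
    (∑ t : ZMod p, g (t, t) ≤ ∑ x ∈ theSet p, g x) := by
  rw [sum_theSet]
  have h2 : 0 ≤ ∑ t ∈ Finset.univ.erase (0 : ZMod p), g (t, t) :=
    Finset.sum_nonneg fun t _ => hg _
  have h3 := hg (1, 0)
  constructor
  · linarith
  · rw [← Finset.add_sum_erase Finset.univ (fun t => g (t, t)) (Finset.mem_univ (0 : ZMod p)),
      ← Finset.add_sum_erase Finset.univ (fun j => g (0, j)) (Finset.mem_univ (0 : ZMod p))]
    have h4 : 0 ≤ ∑ t ∈ Finset.univ.erase (0 : ZMod p), g (0, t) :=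
      Finset.sum_nonneg fun t _ => hg _
    linarith

lemma star_bound (P : B → Prop) [DecidablePred P] (g : ZMod p → ZMod p × ZMod p)
    (hg : (∀ j, g j = (0, j)) ∨ (∀ j, g j = (j, j))) (w : ZMod p)
    (hP : ∀ b : B, P b → ∀ j, b.1.1 * (g j).1 + b.1.2 * (g j).2 = w * j) :
    (p : ℝ) * (Finset.univ.filter P).card ≤ ‖expMap p (theSet p) B‖ ^ 2 := by
  set a : B → ℂ := fun b => if P b then 1 else 0 with ha
  have h := upper B (theSet p) a
  have h1 : ∑ b : B, ‖a b‖ ^ 2 = ((Finset.univ.filter P).card : ℝ) := by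
    rw [Finset.card_filter]
    push_cast
    refine Finset.sum_congr rfl fun b _ => ?_
    simp only [ha]
    split_ifs <;> simp
  rw [h1] at h
  set G : ZMod p × ZMod p → ℝ := fun x =>
    ‖∑ b : B, ZMod.stdAddChar (b.1.1 * x.1 + b.1.2 * x.2) * a b‖ ^ 2 with hG
  have h2 : ∑ j : ZMod p, G (g j) ≤ ∑ x ∈ theSet p, G x := by
    have h3 := theSet_sum_ge G (fun x => by simp only [hG]; positivity)
    rcases hg with hg | hg
    · simp only [hg]; exact h3.1
    · simp only [hg]; exact h3.2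
  have h4 : ∀ j, G (g j) = ((Finset.univ.filter P).card : ℝ) ^ 2 := by
    intro j
    have h5 : ∑ b : B, ZMod.stdAddChar (b.1.1 * (g j).1 + b.1.2 * (g j).2) * a b =
        ZMod.stdAddChar (w * j) * ((Finset.univ.filter P).card : ℂ) := by
      rw [Finset.card_filter]
      push_cast
      rw [Finset.mul_sum]
      refine Finset.sum_congr rfl fun b _ => ?_
      simp only [ha]
      by_cases hb : P b
      · rw [hP b hb j]
      · simp [hb]
    simp only [hG]
    rw [h5, norm_mul, stdAddChar_norm, one_mul]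
    simp
  have h6 : ∑ j : ZMod p, G (g j) = (p : ℝ) * ((Finset.univ.filter P).card : ℝ) ^ 2 := by
    rw [Finset.sum_congr rfl (fun j _ => h4 j)]
    simp [Finset.card_univ, ZMod.card]
  have h7 : ∑ x : theSet p, ‖∑ b : B, ZMod.stdAddChar (b.1.1 * x.1.1 + b.1.2 * x.1.2) * a b‖ ^ 2 =
      ∑ x ∈ theSet p, G x := Finset.sum_coe_sort (theSet p) G
  rw [h7] at h
  by_cases h0 : (Finset.univ.filter P).card = 0
  · rw [h0]
    simp
    
  · have hpos : (0 : ℝ) < (Finset.univ.filter P).card := by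
      exact_mod_cast Nat.pos_of_ne_zero h0
    have h8 : ((p : ℝ) * (Finset.univ.filter P).card) * (Finset.univ.filter P).card ≤
        ‖expMap p (theSet p) B‖ ^ 2 * (Finset.univ.filter P).card := by
      calc ((p : ℝ) * (Finset.univ.filter P).card) * (Finset.univ.filter P).card
          = ∑ j : ZMod p, G (g j) := by rw [h6]; ring
        _ ≤ _ := h2.trans h
    exact le_of_mul_le_mul_right h8 hpos

theorem main_bound (hB : B.card = (theSet p).card)
    (S₀ : EuclideanSpace ℂ (theSet p) →L[ℂ] EuclideanSpace ℂ B)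
    (hS : (expMap p (theSet p) B).comp S₀ = ContinuousLinearMap.id ℂ _) :
    (p : ℝ) / 4 ≤ ‖expMap p (theSet p) B‖ ^ 2 * ‖S₀‖ ^ 2 := by
  have hp0 : (0 : ℝ) < p := by exact_mod_cast (Fact.out : p.Prime).pos
  have hBc : Fintype.card B = 2 * p := by
    rw [Fintype.card_coe, hB, card_theSet]
  have hVc : Fintype.card (ZMod p ⊕ ZMod p) = 2 * p := by
    rw [Fintype.card_sum, ZMod.card]
    ring
  -- degree bound
  have hdeg : ∀ v : ZMod p ⊕ ZMod p,
      (p : ℝ) * (Finset.univ.filter (fun b => es B b = v ∨ et B b = v)).card ≤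
        ‖expMap p (theSet p) B‖ ^ 2 := by
    intro v
    rcases v with u | u
    · refine star_bound B _ (fun j => (0, j)) (Or.inl fun _ => rfl) u ?_
      intro b hb j
      simp only [es, et, Sum.inl.injEq, reduceCtorEq, or_false] at hb
      rw [hb, mul_zero, zero_add]
    · refine star_bound B _ (fun j => (j, j)) (Or.inr fun _ => rfl) u ?_
      intro b hb j
      simp only [es, et, Sum.inr.injEq, reduceCtorEq, false_or] at hb
      rw [← hb]
      ring
  set D : ℕ := ⌊‖expMap p (theSet p) B‖ ^ 2 / p⌋₊ with hDdef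
  have hDle : (p : ℝ) * D ≤ ‖expMap p (theSet p) B‖ ^ 2 := by
    have h1 : (D : ℝ) ≤ ‖expMap p (theSet p) B‖ ^ 2 / p := Nat.floor_le (by positivity)
    rw [le_div_iff₀ hp0] at h1
    linarith
  have hdegD : ∀ v : ZMod p ⊕ ZMod p,
      (Finset.univ.filter (fun b => es B b = v ∨ et B b = v)).card ≤ D := by
    intro v
    apply Nat.le_floor
    rw [le_div_iff₀ hp0]
    have := hdeg v
    linarith
  have hDpos : 0 < D := by
    have hne : Nonempty B := by
      apply Fintype.card_pos_iff.1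
      rw [hBc]
      have := (Fact.out : p.Prime).pos
      omega
    obtain ⟨b0⟩ := hne
    refine lt_of_lt_of_le ?_ (hdegD (es B b0))
    apply Finset.card_pos.2
    exact ⟨b0, by simp⟩
  have hconn : ∀ S : Finset (ZMod p ⊕ ZMod p), S.Nonempty → S ≠ Finset.univ →
      (TreeCut.cut (es B) (et B) S).Nonempty := by
    intro S hSn hSu
    rw [← Finset.card_pos]
    by_contra hcon
    have h0 : (TreeCut.cut (es B) (et B) S).card = 0 := by omega
    have h1 := cut_bound B S₀ hS S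
    rw [h0] at h1
    simp only [Nat.cast_zero, mul_zero] at h1
    have hx0 : (0 : ℝ) ≤ (cU S : ℝ) / p := by positivity
    have hy0 : (0 : ℝ) ≤ (cV S : ℝ) / p := by positivity
    have hx1 : (cU S : ℝ) / p ≤ 1 := by
      rw [div_le_one hp0]; exact_mod_cast cU_le S
    have hy1 : (cV S : ℝ) / p ≤ 1 := by
      rw [div_le_one hp0]; exact_mod_cast cV_le S
    have hSc := card_split S
    have hcard1 : 0 < cU S + cV S := by
      have : 0 < S.card := Finset.card_pos.2 hSn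
      rw [hSc] at this
      exact this
    have hcard2 : cU S + cV S < 2 * p := by
      have : S.card < Fintype.card (ZMod p ⊕ ZMod p) := by
        rw [← Finset.card_univ]
        exact Finset.card_lt_card (Finset.ssubset_univ_iff.2 hSu)
      rw [hSc, hVc] at this
      exact this
    set x := (cU S : ℝ) / p
    set y := (cV S : ℝ) / p
    have e1 : x * (1 - y) + y * (1 - x) ≤ 0 := by linarith
    have e2 : 0 ≤ x * (1 - y) := mul_nonneg hx0 (by linarith)
    have e3 : 0 ≤ y * (1 - x) := mul_nonneg hy0 (by linarith)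
    have e4 : x * (1 - y) = 0 := by linarith
    have e5 : y * (1 - x) = 0 := by linarith
    have hxy : x = y := by linarith
    rcases mul_eq_zero.1 e4 with h | h
    · have hx : (cU S : ℝ) = 0 := by
        have : (cU S : ℝ) / p = 0 := h
        rcases div_eq_zero_iff.1 this with h | h
        · exact h
        · exact absurd h hp0.ne'
      have hy : (cV S : ℝ) = 0 := by
        have : (cV S : ℝ) / p = 0 := by rw [← show x = (cV S : ℝ) / p from hxy]; exact h
        rcases div_eq_zero_iff.1 this with h | h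
        · exact h
        · exact absurd h hp0.ne'
      have hx' : cU S = 0 := by exact_mod_cast hx
      have hy' : cV S = 0 := by exact_mod_cast hy
      omega
    · have hy : (cV S : ℝ) = p := by
        have : (cV S : ℝ) / p = 1 := by
          have : y = 1 := by linarith
          exact this
        rwa [div_eq_one_iff_eq hp0.ne'] at this
      have hx : (cU S : ℝ) = p := by
        have : (cU S : ℝ) / p = 1 := by
          have : x = 1 := by linarith
          exact this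
        rwa [div_eq_one_iff_eq hp0.ne'] at this
      have hx' : cU S = p := by exact_mod_cast hx
      have hy' : cV S = p := by exact_mod_cast hy
      omega
  obtain ⟨S, hSp, hSD, hScut⟩ := TreeCut.exists_small_cut (es B) (et B) hconn p D
    (Fact.out : p.Prime).pos hVc hBc hDpos hdegD
  have h1 := cut_bound B S₀ hS S
  have hSc : S.card = cU S + cV S := card_split S
  have h2 : ‖S₀‖ ^ 2 * ((TreeCut.cut (es B) (et B) S).card : ℝ) ≤ ‖S₀‖ ^ 2 * 2 := by
    gcongr
    exact_mod_cast hScut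
  set x := (cU S : ℝ) / p with hxdef
  set y := (cV S : ℝ) / p with hydef
  have hx0 : 0 ≤ x := by positivity
  have hy0 : 0 ≤ y := by positivity
  have hxy : x + y = (S.card : ℝ) / p := by
    rw [hSc, hxdef, hydef]; push_cast; ring
  have hxy1 : x + y ≤ 1 := by
    rw [hxy, div_le_one hp0]; exact_mod_cast hSp
  have h3 : (x + y) / 2 ≤ x + y - 2 * x * y := by nlinarith [sq_nonneg (x - y)]
  have h4 : (x + y) / 2 ≤ ‖S₀‖ ^ 2 * 2 := by linarith
  have h5 : (S.card : ℝ) / p ≤ ‖S₀‖ ^ 2 * 4 := by rw [← hxy]; linarith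
  have h6 : (p : ℝ) ≤ D * S.card := by exact_mod_cast hSD
  calc (p : ℝ) / 4 ≤ (D * S.card) / 4 := by linarith
    _ = (p * D) * ((S.card : ℝ) / p) / 4 := by field_simp
    _ ≤ ‖expMap p (theSet p) B‖ ^ 2 * (‖S₀‖ ^ 2 * 4) / 4 := by gcongr
    _ = ‖expMap p (theSet p) B‖ ^ 2 * ‖S₀‖ ^ 2 := by ring

lemma n2_eq {ι : Type} [Fintype ι] (a : ι → ℂ) :
    n2 a = ENNReal.ofReal (‖(WithLp.toLp 2 a : EuclideanSpace ℂ ι)‖ ^ 2) := by
  rw [EuclideanSpace.norm_sq_eq, n2, ENNReal.ofReal_sum_of_nonneg (fun _ _ => by positivity)]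
  refine Finset.sum_congr rfl fun i _ => ?_
  rw [ENNReal.ofReal_pow (norm_nonneg _), ofReal_norm]

lemma mapT_eq (E : Finset (ZMod p × ZMod p)) (a : B → ℂ) :
    (WithLp.toLp 2 (mapT p E B a) : EuclideanSpace ℂ E) = expMap p E B (WithLp.toLp 2 a) := by
  ext x
  rw [expMap_apply]
  rfl

lemma n2_ne_zero {ι : Type} [Fintype ι] (a : ι → ℂ) (ha : a ≠ 0) : n2 a ≠ 0 := by
  intro h
  apply ha
  rw [n2, Finset.sum_eq_zero_iff] at h
  funext i
  have := h i (Finset.mem_univ _)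
  simpa using this

lemma n2_ne_top {ι : Type} [Fintype ι] (a : ι → ℂ) : n2 a ≠ ⊤ := by
  rw [n2_eq]
  exact ENNReal.ofReal_ne_top

lemma norm_le (E : Finset (ZMod p × ZMod p)) :
    ENNReal.ofReal (‖expMap p E B‖ ^ 2) ≤ normSqT p E B := by
  by_cases htop : normSqT p E B = ⊤
  · rw [htop]; exact le_top
  · set C : ℝ := (normSqT p E B).toReal with hC
    have h1 : ‖expMap p E B‖ ≤ Real.sqrt C := by
      refine ContinuousLinearMap.opNorm_le_bound _ (Real.sqrt_nonneg _) fun a => ?_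
      by_cases ha : a = 0
      · subst ha; simp
      · have ha' : WithLp.ofLp a ≠ 0 := by
          intro h
          apply ha
          ext i
          exact congrFun h i
        have h2 : n2 (mapT p E B (WithLp.ofLp a)) / n2 (WithLp.ofLp a) ≤ normSqT p E B :=
          le_iSup₂_of_le (WithLp.ofLp a) ha' le_rfl
        rw [ENNReal.div_le_iff (n2_ne_zero _ ha') (n2_ne_top _), n2_eq, n2_eq, mapT_eq,
          ← ENNReal.ofReal_toReal htop, ← ENNReal.ofReal_mul ENNReal.toReal_nonneg,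
          ENNReal.ofReal_le_ofReal_iff (mul_nonneg ENNReal.toReal_nonneg (by positivity))] at h2
        have h3 : ‖expMap p E B a‖ ^ 2 ≤ C * ‖a‖ ^ 2 := h2
        rw [← Real.sqrt_sq (norm_nonneg (expMap p E B a)), ← Real.sqrt_sq (norm_nonneg a),
          ← Real.sqrt_mul ENNReal.toReal_nonneg]
        exact Real.sqrt_le_sqrt h3
    rw [← ENNReal.ofReal_toReal htop]
    apply ENNReal.ofReal_le_ofReal
    calc ‖expMap p E B‖ ^ 2 ≤ (Real.sqrt C) ^ 2 := pow_le_pow_left₀ (norm_nonneg _) h1 2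
      _ = C := Real.sq_sqrt ENNReal.toReal_nonneg

lemma exists_inverse (E : Finset (ZMod p × ZMod p)) (hB : B.card = E.card)
    (htop : invNormSqT p E B ≠ ⊤) :
    ∃ S₀ : EuclideanSpace ℂ E →L[ℂ] EuclideanSpace ℂ B,
      (expMap p E B).comp S₀ = ContinuousLinearMap.id ℂ _ ∧
      ENNReal.ofReal (‖S₀‖ ^ 2) ≤ invNormSqT p E B := by
  set C : ℝ := (invNormSqT p E B).toReal with hC
  have hbd : ∀ a : EuclideanSpace ℂ B, ‖a‖ ^ 2 ≤ C * ‖expMap p E B a‖ ^ 2 := by
    intro a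
    by_cases ha : a = 0
    · subst ha; simp
    · have ha' : WithLp.ofLp a ≠ 0 := by
        intro h
        apply ha
        ext i
        exact congrFun h i
      have h2 : n2 (WithLp.ofLp a) / n2 (mapT p E B (WithLp.ofLp a)) ≤ invNormSqT p E B :=
        le_iSup₂_of_le (WithLp.ofLp a) ha' le_rfl
      have hne : n2 (mapT p E B (WithLp.ofLp a)) ≠ 0 := by
        intro h0
        rw [h0, ENNReal.div_zero (n2_ne_zero _ ha')] at h2
        exact htop (top_le_iff.1 h2)
      rw [ENNReal.div_le_iff hne (n2_ne_top _), n2_eq, n2_eq, mapT_eq,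
        ← ENNReal.ofReal_toReal htop, ← ENNReal.ofReal_mul ENNReal.toReal_nonneg,
        ENNReal.ofReal_le_ofReal_iff (mul_nonneg ENNReal.toReal_nonneg (by positivity))] at h2
      exact h2
  have hinj : Function.Injective (expMap p E B).toLinearMap := by
    rw [← LinearMap.ker_eq_bot, LinearMap.ker_eq_bot']
    intro a ha
    have h1 := hbd a
    have h2 : expMap p E B a = 0 := ha
    rw [h2] at h1
    simp only [norm_zero, ne_eq, OfNat.ofNat_ne_zero, not_false_eq_true, zero_pow,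
      mul_zero] at h1
    have h3 : ‖a‖ = 0 := by nlinarith [norm_nonneg a]
    exact norm_eq_zero.1 h3
  have hdim : Module.finrank ℂ (EuclideanSpace ℂ B) = Module.finrank ℂ (EuclideanSpace ℂ E) := by
    simp [hB]
  let e' := LinearMap.linearEquivOfInjective (expMap p E B).toLinearMap hinj hdim
  let S₀ : EuclideanSpace ℂ E →L[ℂ] EuclideanSpace ℂ B :=
    LinearMap.toContinuousLinearMap e'.symm.toLinearMap
  have hS : ∀ h, expMap p E B (S₀ h) = h := by
    intro h
    exact e'.apply_symm_apply h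
  refine ⟨S₀, by ext h : 1; exact hS h, ?_⟩
  have h1 : ‖S₀‖ ≤ Real.sqrt C := by
    refine ContinuousLinearMap.opNorm_le_bound _ (Real.sqrt_nonneg _) fun h => ?_
    have h2 := hbd (S₀ h)
    rw [hS] at h2
    rw [← Real.sqrt_sq (norm_nonneg (S₀ h)), ← Real.sqrt_sq (norm_nonneg h),
      ← Real.sqrt_mul ENNReal.toReal_nonneg]
    exact Real.sqrt_le_sqrt h2
  rw [← ENNReal.ofReal_toReal htop]
  apply ENNReal.ofReal_le_ofReal
  calc ‖S₀‖ ^ 2 ≤ (Real.sqrt C) ^ 2 := pow_le_pow_left₀ (norm_nonneg _) h1 2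
    _ = C := Real.sq_sqrt ENNReal.toReal_nonneg

theorem rieszRatio_ge : ENNReal.ofReal ((p : ℝ) / 4) ≤ rieszRatio p (theSet p) := by
  unfold rieszRatio rieszRatioRel
  refine le_iInf fun B => le_iInf fun hB => ?_
  by_cases htop : invNormSqT p (theSet p) B = ⊤
  · have hne : Nonempty B := by
      apply Fintype.card_pos_iff.1
      rw [Fintype.card_coe, hB, card_theSet]
      have := (Fact.out : p.Prime).pos
      omega
    obtain ⟨b0⟩ := hne
    classical
    have h1 := star_bound B (fun b => b = b0) (fun j => (0, j)) (Or.inl fun _ => rfl) b0.1.2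
      (by
        intro b hb j
        subst hb
        simp only [mul_zero, zero_add])
    have h2 : (Finset.univ.filter (fun b : B => b = b0)).card = 1 := by
      rw [Finset.filter_eq' Finset.univ b0, if_pos (Finset.mem_univ _), Finset.card_singleton]
    rw [h2] at h1
    have h3 : (0 : ℝ) < p := by exact_mod_cast (Fact.out : p.Prime).pos
    have h4 : normSqT p (theSet p) B ≠ 0 := by
      intro h0
      have := norm_le B (theSet p)
      rw [h0] at this
      have h5 : ENNReal.ofReal (‖expMap p (theSet p) B‖ ^ 2) = 0 := le_antisymm this bot_le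
      rw [ENNReal.ofReal_eq_zero] at h5
      simp only [Nat.cast_one, mul_one] at h1
      linarith
    rw [htop, ENNReal.mul_top h4]
    exact le_top
  · obtain ⟨S₀, hS, hSn⟩ := exists_inverse B (theSet p) hB htop
    have h1 := main_bound B hB S₀ hS
    calc ENNReal.ofReal ((p : ℝ) / 4)
        ≤ ENNReal.ofReal (‖expMap p (theSet p) B‖ ^ 2 * ‖S₀‖ ^ 2) :=
          ENNReal.ofReal_le_ofReal h1
      _ = ENNReal.ofReal (‖expMap p (theSet p) B‖ ^ 2) * ENNReal.ofReal (‖S₀‖ ^ 2) :=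
          ENNReal.ofReal_mul (by positivity)
      _ ≤ _ := mul_le_mul' (norm_le B (theSet p)) hSn

end

instance (n : ℕ) : Fact (Nat.nth Nat.Prime n).Prime := ⟨Nat.prime_nth_prime n⟩

/-- **Positive answer to Q1 of MP_1b30fb_an.** `ρ(E_n) → ∞`, where `p_n = Nat.nth Nat.Prime n`
is the `n`-th odd prime (`Nat.nth Nat.Prime 0 = 2`); quantitatively `ρ(E) ≥ p / 4` for every
prime `p`. -/
theorem result :
    (∀ (p : ℕ) [Fact p.Prime], ENNReal.ofReal ((p : ℝ) / 4) ≤ rieszRatio p (theSet p)) ∧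
    Filter.Tendsto
      (fun n : ℕ => rieszRatio (Nat.nth Nat.Prime n) (theSet (Nat.nth Nat.Prime n)))
      Filter.atTop (nhds ⊤) := by
  refine ⟨fun p _ => rieszRatio_ge, ?_⟩
  refine tendsto_nhds_top_mono' (f := fun n : ℕ =>
    ENNReal.ofReal (((Nat.nth Nat.Prime n : ℕ) : ℝ) / 4)) ?_ (fun n => rieszRatio_ge)
  rw [ENNReal.tendsto_nhds_top_iff_nat]
  intro m
  have h1 : Filter.Tendsto (fun n : ℕ => Nat.nth Nat.Prime n) Filter.atTop Filter.atTop :=
    (Nat.nth_strictMono Nat.infinite_setOfPred_prime).tendsto_atTop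
  filter_upwards [h1.eventually_gt_atTop (4 * m)] with n hn
  have h2 : (m : ℝ) < ((Nat.nth Nat.Prime n : ℕ) : ℝ) / 4 := by
    have : ((4 * m : ℕ) : ℝ) < ((Nat.nth Nat.Prime n : ℕ) : ℝ) := by exact_mod_cast hn
    push_cast at this
    linarith
  have h3 : (m : ℝ≥0∞) = ENNReal.ofReal (m : ℝ) := by simp
  rw [h3]
  refine (ENNReal.ofReal_lt_ofReal_iff ?_).2 h2
  have : (0 : ℝ) ≤ m := by positivity
  linarith

end Pool.Agent.Results.MP_1b30fb_an.RieszRatioTendsto
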